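import Mathlib

set_option autoImplicit false

/-!
# Order preserving right actions of Engel groups on complete linear orders

`RA Ω G` is an order preserving right action of a group `G` on a complete linear order `Ω`.
`Up A b l p` says that `l < p` are fixed by `b` and that `b` moves every point strictly between
them to the right.
-/

namespace Pool.Agent.Helper277.ZG.H94

/-- An order preserving right action of `G` on `Ω`. -/
structure RA (Ω G : Type*) [LinearOrder Ω] [Group G] where
  act : Ω → G → Ω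
  act_one : ∀ z, act z 1 = z
  act_mul : ∀ z g h, act z (g * h) = act (act z g) h
  act_mono : ∀ z w g, z < w → act z g < act w g

/-- The `n`-Engel law in the form used by the frozen statement. -/
def EngelLaw (n : ℕ) (G : Type*) [Group G] : Prop :=
  ∀ x y : G, (fun z : G => z⁻¹ * y⁻¹ * z * y)^[n] x = 1

namespace RA

section basic

variable {Ω G : Type*} [LinearOrder Ω] [Group G] (A : RA Ω G)

theorem lt_iff (z w : Ω) (g : G) : A.act z g < A.act w g ↔ z < w := by
  refine ⟨fun h => ?_, A.act_mono z w g⟩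
  have := A.act_mono _ _ g⁻¹ h
  rwa [← A.act_mul, ← A.act_mul, mul_inv_cancel, A.act_one, A.act_one] at this

theorem le_iff (z w : Ω) (g : G) : A.act z g ≤ A.act w g ↔ z ≤ w := by
  rw [← not_lt, ← not_lt, A.lt_iff]

theorem act_inv_act (z : Ω) (g : G) : A.act (A.act z g⁻¹) g = z := by
  rw [← A.act_mul, inv_mul_cancel, A.act_one]

theorem act_act_inv (z : Ω) (g : G) : A.act (A.act z g) g⁻¹ = z := by
  rw [← A.act_mul, mul_inv_cancel, A.act_one]

theorem inj {z w : Ω} {g : G} (h : A.act z g = A.act w g) : z = w := by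
  rw [← A.act_act_inv z g, h, A.act_act_inv]

theorem fix_inv {z : Ω} {g : G} (h : A.act z g = z) : A.act z g⁻¹ = z := by
  conv_lhs => rw [← h]
  rw [A.act_act_inv]

theorem fix_inv_iff {z : Ω} {g : G} : A.act z g⁻¹ = z ↔ A.act z g = z :=
  ⟨fun h => by simpa using A.fix_inv h, A.fix_inv⟩

/-- `z < z g⁻¹` iff `z g < z`. -/
theorem lt_act_inv_iff {z : Ω} {g : G} : z < A.act z g⁻¹ ↔ A.act z g < z := by
  rw [← A.lt_iff z (A.act z g⁻¹) g, A.act_inv_act]

theorem act_inv_lt_iff {z : Ω} {g : G} : A.act z g⁻¹ < z ↔ z < A.act z g := by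
  rw [← A.lt_iff (A.act z g⁻¹) z g, A.act_inv_act]

/-- `b` fixes `l < p` and moves the points strictly between them to the right. -/
structure Up (b : G) (l p : Ω) : Prop where
  lt : l < p
  fl : A.act l b = l
  fp : A.act p b = p
  up : ∀ z, l < z → z < p → z < A.act z b

theorem act_eq_iff_conj {z : Ω} {b h : G} :
    A.act z (h⁻¹ * b * h) = z ↔ A.act (A.act z h⁻¹) b = A.act z h⁻¹ := by
  rw [A.act_mul, A.act_mul]
  constructor
  · intro hh
    apply A.inj (g := h)
    rw [hh, A.act_inv_act]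
  · intro hh
    rw [hh, A.act_inv_act]

theorem Up.conj {b : G} {l p : Ω} (h : A.Up b l p) (c : G) :
    A.Up (c⁻¹ * b * c) (A.act l c) (A.act p c) where
  lt := A.act_mono _ _ _ h.lt
  fl := by rw [A.act_mul, A.act_mul, A.act_act_inv, h.fl]
  fp := by rw [A.act_mul, A.act_mul, A.act_act_inv, h.fp]
  up := by
    intro z h1 h2
    have e1 : l < A.act z c⁻¹ := by
      rw [← A.lt_iff _ _ c, A.act_inv_act]; exact h1
    have e2 : A.act z c⁻¹ < p := by
      rw [← A.lt_iff _ _ c, A.act_inv_act]; exact h2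
    have e3 := h.up _ e1 e2
    have e4 := A.act_mono _ _ c e3
    rw [A.act_inv_act] at e4
    rw [A.act_mul, A.act_mul]
    exact e4

/-- Step `P1`: the Engel law forbids a conjugate of `b` that fixes `p` and moves `l` to the
right. -/
theorem P1 {n : ℕ} (hE : EngelLaw n G) {b h : G} {l p : Ω} (hb : A.Up b l p)
    (hp : A.act p (h⁻¹ * b * h) = p) (hl : l < A.act l (h⁻¹ * b * h)) : False := by
  set F : G → G := fun z : G => z⁻¹ * b⁻¹ * z * b with hF
  have hF' : ∀ z : G, F z = (z⁻¹ * b * z)⁻¹ * b := by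
    intro z; simp only [hF]; group
  -- c i = F^[i] h , b_{i+1} = (c i)⁻¹ * b * c i
  have key : ∀ i : ℕ, A.act p ((F^[i] h)⁻¹ * b * F^[i] h) = p ∧
      l < A.act l ((F^[i] h)⁻¹ * b * F^[i] h) := by
    intro i
    induction i with
    | zero => exact ⟨hp, hl⟩
    | succ i ih =>
      obtain ⟨h1, h2⟩ := ih
      set bi := (F^[i] h)⁻¹ * b * F^[i] h with hbi
      have hc : F^[i+1] h = bi⁻¹ * b := by
        rw [Function.iterate_succ_apply', hF']
      set c := F^[i+1] h with hc'
      have hpc : A.act p c = p := by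
        rw [hc, A.act_mul, A.fix_inv h1, hb.fp]
      have hlc : A.act l c < l := by
        rw [hc, A.act_mul]
        have : A.act l bi⁻¹ < l := A.act_inv_lt_iff.2 h2
        calc A.act (A.act l bi⁻¹) b < A.act l b := A.act_mono _ _ _ this
          _ = l := hb.fl
      refine ⟨?_, ?_⟩
      · rw [A.act_mul, A.act_mul, A.fix_inv hpc, hb.fp, hpc]
      · have e1 : l < A.act l c⁻¹ := A.lt_act_inv_iff.2 hlc
        have e2 : A.act l c⁻¹ < p := by
          calc A.act l c⁻¹ < A.act p c⁻¹ := A.act_mono _ _ _ hb.lt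
            _ = p := A.fix_inv hpc
        have e3 := A.act_mono _ _ c (hb.up _ e1 e2)
        rw [A.act_inv_act] at e3
        rw [A.act_mul, A.act_mul]
        exact e3
  obtain ⟨_, h2⟩ := key n
  have h3 : F^[n] h = 1 := hE h b
  rw [h3] at h2
  simp only [inv_one, one_mul, mul_one] at h2
  rw [hb.fl] at h2
  exact lt_irrefl _ h2

/-- Step `P2`. -/
theorem P2 {n : ℕ} (hE : EngelLaw n G) {b h : G} {l p : Ω} (hb : A.Up b l p)
    (hp : A.act p (h⁻¹ * b * h) = p) : A.act l (h⁻¹ * b * h) = l := by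
  rcases lt_trichotomy (A.act l (h⁻¹ * b * h)) l with h1 | h1 | h1
  · exfalso
    set g := h⁻¹ * b * h with hg
    set c := g⁻¹ * b with hc
    have hpc : A.act p c = p := by
      rw [hc, A.act_mul, A.fix_inv hp, hb.fp]
    have hlc : l < A.act l c := by
      have e1 : l < A.act l g⁻¹ := A.lt_act_inv_iff.2 h1
      have e2 := A.act_mono _ _ b e1
      rw [hb.fl, ← A.act_mul] at e2
      exact e2
    have hb2 := hb.conj A c
    rw [hpc] at hb2
    have e3 : A.act l c < p := by
      calc A.act l c < A.act p c := A.act_mono _ _ _ hb.lt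
        _ = p := hpc
    have hbb : (c⁻¹)⁻¹ * (c⁻¹ * b * c) * c⁻¹ = b := by group
    refine A.P1 hE hb2 (h := c⁻¹) ?_ ?_
    · rw [hbb, hb.fp]
    · rw [hbb]
      exact hb.up _ hlc e3
  · exact h1
  · exact (A.P1 hE hb hp h1).elim

/-- Step `P3`: if `g` fixes the right end point of an upward interval of `b`, it fixes the left
end point. -/
theorem P3 {n : ℕ} (hE : EngelLaw n G) {b g : G} {l p : Ω} (hb : A.Up b l p)
    (hp : A.act p g = p) : A.act l g = l := by
  have aux : ∀ k : G, A.act p k = p → A.act (A.act l k⁻¹) b = A.act l k⁻¹ := by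
    intro k hk
    rw [← A.act_eq_iff_conj]
    apply A.P2 hE hb
    rw [A.act_eq_iff_conj, A.fix_inv hk, hb.fp]
  have aux2 : ∀ k : G, A.act p k = p → ¬ l < A.act l k⁻¹ := by
    intro k hk h1
    have h2 : A.act l k⁻¹ < p := by
      calc A.act l k⁻¹ < A.act p k⁻¹ := A.act_mono _ _ _ hb.lt
        _ = p := A.fix_inv hk
    have h3 := hb.up _ h1 h2
    rw [aux k hk] at h3
    exact lt_irrefl _ h3
  rcases lt_trichotomy (A.act l g) l with h1 | h1 | h1
  · exact (aux2 g hp (A.lt_act_inv_iff.2 h1)).elim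
  · exact h1
  · refine (aux2 g⁻¹ (A.fix_inv hp) ?_).elim
    rwa [inv_inv]

/-- `b` or `b⁻¹` moves the points between the fixed points `l < p` to the right. -/
def Cmp (b : G) (l p : Ω) : Prop := A.Up b l p ∨ A.Up b⁻¹ l p

theorem P3' {n : ℕ} (hE : EngelLaw n G) {b g : G} {l p : Ω} (hb : A.Cmp b l p)
    (hp : A.act p g = p) : A.act l g = l := by
  rcases hb with hb | hb
  · exact A.P3 hE hb hp
  · exact A.P3 hE hb hp

theorem Cmp.lt {b : G} {l p : Ω} (h : A.Cmp b l p) : l < p := by
  rcases h with h | h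
  · exact h.lt
  · exact h.lt

theorem Cmp.fl {b : G} {l p : Ω} (h : A.Cmp b l p) : A.act l b = l := by
  rcases h with h | h
  · exact h.fl
  · exact A.fix_inv_iff.1 h.fl

theorem Cmp.fp {b : G} {l p : Ω} (h : A.Cmp b l p) : A.act p b = p := by
  rcases h with h | h
  · exact h.fp
  · exact A.fix_inv_iff.1 h.fp

theorem Cmp.ne {b : G} {l p : Ω} (h : A.Cmp b l p) {z : Ω} (h1 : l < z) (h2 : z < p) :
    A.act z b ≠ z := by
  rcases h with h | h
  · exact (h.up z h1 h2).ne'
  · intro h3
    exact (h.up z h1 h2).ne' (A.fix_inv h3)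

end basic

end RA

end Pool.Agent.Helper277.ZG.H94
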