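import Mathlib
import Pool.Agent.Helper277.ZG.H94.EngelOrderI
import Pool.Agent.Helper277.ZG.Kos.Final

set_option autoImplicit false
namespace Pool.Agent.Helper277.ZG.H94.ZelGroup

open Pool.Agent.Helper277.ZG.Kos

/-- the Lie input: bounded nilpotency of `n`-Engel Lie algebras over `ℚ` -/
def ZelLie : Prop := ∀ n : ℕ, ∃ c : ℕ, ∀ (L : Type) [LieRing L] [LieAlgebra ℚ L],
  (∀ u : L, (LieAlgebra.ad ℚ L u) ^ n = 0) → LieModule.lowerCentralSeries ℚ L L c = ⊥

attribute [local instance 100] LieRing.ofAssociativeRing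

/-- unipotent images over `ℚ` of `k`-Engel groups have bounded class. -/
theorem unipotent_class_glob (hZ : ZelLie) (k : ℕ) : ∃ c : ℕ, ∀ (H : Type) [Group H],
    (∀ x y : H, (fun z : H => z⁻¹ * y⁻¹ * z * y)^[k] x = 1) →
    ∀ (R : Type) [Ring R] [Algebra ℚ R] (ρ : H →* R) (M : ℕ),
      (∀ l : List H, l.length = M → (l.map (fun g => ρ g - 1)).prod = 0) →
      ∀ h ∈ Subgroup.lowerCentralSeries (⊤ : Subgroup H) c, ρ h = 1 := by
  obtain ⟨c0, hc0⟩ := hZ k
  refine ⟨c0 + 1, ?_⟩
  intro H _ hE R _ _ ρ M hM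
  have hM1 : ∀ g : H, (ρ g - 1) ^ M = 0 := by
    intro g
    have := hM (List.replicate M g) (by simp)
    simpa using this
  choose v hv using fun g : H => Jet.pow_unipotent (hM1 g)
  obtain ⟨hinv, hconj, hS⟩ := log_span_lie ρ M hM v hv
  have hEng := log_span_engel ρ M hM v hv k hE
  let 𝔤 : LieSubalgebra ℚ R :=
    { Submodule.span ℚ (Set.range v) with
      lie_mem' := by
        intro x y hx hy
        rw [Ring.lie_def]
        exact hS x hx y hy }
  have hvm : ∀ g : H, v g ∈ 𝔤 := fun g => Submodule.subset_span ⟨g, rfl⟩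
  have hbot : LieModule.lowerCentralSeries ℚ 𝔤 𝔤 c0 = ⊥ := by
    apply hc0 𝔤
    intro u
    ext w
    have key : ∀ n : ℕ, (((LieAlgebra.ad ℚ 𝔤 u) ^ n) w : R) = (fun z : R => (u : R) * z - z * (u : R))^[n] (w : R) := by
      intro n
      induction n with
      | zero => simp
      | succ n ih =>
        rw [pow_succ', Function.iterate_succ_apply', ← ih]
        simp only [Module.End.mul_apply, LieAlgebra.ad_apply, LieSubalgebra.coe_bracket, Ring.lie_def]
    have := key k
    rw [hEng _ u.2 _ w.2] at this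
    simpa using this
  let W : ℕ → Submodule ℚ R := fun j =>
    ((LieModule.lowerCentralSeries ℚ 𝔤 𝔤 j : LieSubmodule ℚ 𝔤 𝔤) : Submodule ℚ 𝔤).map 𝔤.toSubmodule.subtype
  have hWanti : Antitone W := by
    intro i j hij
    apply Submodule.map_mono
    exact LieModule.antitone_lowerCentralSeries ℚ 𝔤 𝔤 hij
  have hWbot : W c0 = ⊥ := by
    show Submodule.map _ _ = ⊥
    rw [hbot]; simp
  have hW0 : ∀ x ∈ 𝔤, x ∈ W 0 := by
    intro x hx
    exact ⟨⟨x, hx⟩, by simp, rfl⟩
  have hWstep : ∀ u ∈ 𝔤, ∀ j, ∀ w ∈ W j, u * w - w * u ∈ W (j + 1) := by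
    rintro u hu j w ⟨w', hw', rfl⟩
    refine ⟨⁅(⟨u, hu⟩ : 𝔤), w'⁆, ?_, ?_⟩
    · show ⁅(⟨u, hu⟩ : 𝔤), w'⁆ ∈ (LieModule.lowerCentralSeries ℚ 𝔤 𝔤 (j + 1))
      rw [LieModule.lowerCentralSeries_succ]
      exact LieSubmodule.lie_mem_lie (LieSubmodule.mem_top _) hw'
    · rfl
  have hstep : ∀ g : H, ∀ j, ∀ w ∈ W j, conjEnd ρ g w - w ∈ W (j + 1) := by
    intro g j w hw
    have hg := hvm g
    obtain ⟨N, hN⟩ := conjEnd_exp ρ M hM1 v hv g (hinv g)
    have hpow : ∀ i : ℕ, ((LinearMap.mulLeft ℚ (v g) + LinearMap.mulRight ℚ (- v g) : Module.End ℚ R) ^ (i + 1)) w ∈ W (j + 1) := by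
      intro i
      induction i with
      | zero =>
        have := hWstep _ hg j w hw
        simpa [sub_eq_add_neg] using this
      | succ i ih =>
        rw [pow_succ']
        have := hWstep _ hg (j + 1) _ ih
        have h2 := hWanti (Nat.le_succ (j + 1)) this
        simpa [sub_eq_add_neg] using h2
    have hN2 : conjEnd ρ g w = ∑ i ∈ Finset.range N, (i.factorial : ℚ)⁻¹ •
      ((LinearMap.mulLeft ℚ (v g) + LinearMap.mulRight ℚ (- v g) : Module.End ℚ R) ^ i) w := by
      rw [hN]; simp [LinearMap.sum_apply]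
    rcases N with _ | N
    · have h0 : conjEnd ρ g = 0 := by rw [hN]; simp
      have h1 : (1 : Module.End ℚ R) = 0 := by
        have : conjEnd ρ (g * g⁻¹) = conjEnd ρ g * conjEnd ρ g⁻¹ := map_mul _ _ _
        rw [h0, zero_mul, mul_inv_cancel, map_one] at this
        exact this
      have : conjEnd ρ g w - w = 0 := by
        have h2 : w = (1 : Module.End ℚ R) w := rfl
        rw [h0, h2, h1]; simp
      rw [this]; exact zero_mem _
    · rw [hN2, Finset.sum_range_succ']
      simp only [Nat.factorial_zero, Nat.cast_one, inv_one, pow_zero, Module.End.one_apply, one_smul, add_sub_cancel_right]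
      exact Submodule.sum_mem _ fun i _ => Submodule.smul_mem _ _ (hpow i)
  have hstab := stability (conjEnd ρ) W hWanti hstep c0
  have hcomm : ∀ g ∈ Subgroup.lowerCentralSeries (⊤ : Subgroup H) c0, ∀ h : H, ρ g * ρ h = ρ h * ρ g := by
    intro g hg
    have hginv : ρ g⁻¹ * ρ g = 1 := by rw [← map_mul]; simp
    have hfix : ∀ w ∈ 𝔤, Commute (ρ g) w := by
      intro w hw
      have h1 := hstab g hg 0 w (hW0 w hw)
      have h2 : conjEnd ρ g w - w ∈ W c0 := hWanti (by omega) h1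
      rw [hWbot, Submodule.mem_bot, sub_eq_zero, conjEnd_apply] at h2
      have h3 : ρ g * w * ρ g⁻¹ * ρ g = w * ρ g := by rw [h2]
      rw [mul_assoc, hginv, mul_one] at h3
      exact h3
    intro x
    obtain ⟨⟨N, hN⟩, he, -⟩ := exp_log (hM1 x) (hv x)
    rw [← he, IsNilpotent.exp_eq_sum hN]
    apply Commute.sum_right
    intro i _
    exact ((hfix _ (hvm x)).pow_right i).smul_right _
  intro h hh
  rw [Subgroup.mem_lowerCentralSeries_succ_iff] at hh
  induction hh using Subgroup.closure_induction with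
  | mem x hx =>
    obtain ⟨p, hp, q, -, rfl⟩ := hx
    rw [commutatorElement_def, map_mul, map_mul, map_mul, hcomm p hp q]
    have h1 : ρ q * ρ p * ρ p⁻¹ * ρ q⁻¹ = ρ (q * p * p⁻¹ * q⁻¹) := by simp only [map_mul]
    rw [h1]; simp
  | one => simp
  | mul x y _ _ hx hy => rw [map_mul, hx, hy, one_mul]
  | inv x _ hx =>
    have : ρ x⁻¹ * ρ x = 1 := by rw [← map_mul]; simp
    rw [hx, mul_one] at this
    exact this

/-- finitely generated locally indicable `k`-Engel groups have bounded class -/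
theorem class_of_engel_locInd (hZ : ZelLie) (k : ℕ) : ∃ c : ℕ, ∀ (H : Type) [Group H],
    Group.FG H →
    (∀ x y : H, (fun z : H => z⁻¹ * y⁻¹ * z * y)^[k] x = 1) →
    (∀ K : Subgroup H, K.FG → K ≠ ⊥ →
      ∃ φ : K →* Multiplicative ℤ, Function.Surjective φ) →
    Subgroup.lowerCentralSeries (⊤ : Subgroup H) c = ⊥ := by
  classical
  obtain ⟨c, hc⟩ := unipotent_class_glob hZ k
  refine ⟨c, ?_⟩
  intro H _ hfgH hE hLI
  by_contra hne
  have hEK : ∀ K : Subgroup H, ∀ x y : K, (fun z : K => z⁻¹ * y⁻¹ * z * y)^[k] x = 1 := by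
    intro K x y
    have h1 : ∀ j : ℕ, (((fun z : K => z⁻¹ * y⁻¹ * z * y)^[j] x : K) : H) =
        (fun z : H => z⁻¹ * (y : H)⁻¹ * z * y)^[j] (x : H) := by
      intro j
      induction j with
      | zero => rfl
      | succ j ih =>
        rw [Function.iterate_succ_apply', Function.iterate_succ_apply', ← ih]
        rfl
    apply Subtype.ext
    rw [h1, hE]
    rfl
  have hstep : ∀ K : Subgroup H, K.FG → K ≠ ⊥ → ∃ φ : K →* Multiplicative ℤ,
      Function.Surjective φ ∧ (φ.ker.map K.subtype).FG := by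
    intro K hK hK0
    obtain ⟨φ, hφ⟩ := hLI K hK hK0
    have : Group.FG K := (Group.fg_iff_subgroup_fg K).2 hK
    exact ⟨φ, hφ, fg_map' _ (ker_fg K k (hEK K) φ hφ)⟩
  choose! Φ hΦ using hstep
  let step : {K : Subgroup H // K.FG} → {K : Subgroup H // K.FG} := fun K =>
    if h : K.1 ≠ ⊥ then ⟨(Φ K.1).ker.map K.1.subtype, (hΦ K.1 K.2 h).2⟩ else K
  let N : ℕ → {K : Subgroup H // K.FG} := fun i => Nat.rec ⟨⊤, (Group.fg_def).1 hfgH⟩
    (fun _ K => step K) i
  have hN0 : (N 0).1 = ⊤ := rfl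
  have hNs : ∀ i, (N i).1 ≠ ⊥ → (N (i + 1)).1 = (Φ (N i).1).ker.map (N i).1.subtype := by
    intro i h
    change (step (N i)).1 = _
    simp only [step]
    rw [dif_pos h]
  have key : ∀ i, (Subgroup.lowerCentralSeries (⊤ : Subgroup H) c ≤ (N i).1) ∧
      ∀ t : (N i).1, UDetect (N i).1 t → UDetect H t := by
    intro i
    induction i with
    | zero =>
      refine ⟨by rw [hN0]; exact le_top, ?_⟩
      intro t ht
      exact UDetect.equiv (Subgroup.topEquiv (G := H)) ht
    | succ i ih =>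
      have h0 : (N i).1 ≠ ⊥ := fun h => hne (le_bot_iff.1 (h ▸ ih.1))
      have hs := hNs i h0
      obtain ⟨hsurj, -⟩ := hΦ (N i).1 (N i).2 h0
      refine ⟨?_, ?_⟩
      · intro t ht
        rw [hs]
        have htN := ih.1 ht
        refine ⟨⟨t, htN⟩, ?_, rfl⟩
        change Φ (N i).1 ⟨t, htN⟩ = 1
        by_contra hcon
        obtain ⟨R, i1, i2, ρ, M, hM, hρ⟩ := ih.2 ⟨t, htN⟩ (UDetect.of_int _ hcon)
        exact hρ (hc H hE R ρ M hM t ht)
      · intro t ht
        have ht2 : (t : H) ∈ (Φ (N i).1).ker.map (N i).1.subtype := hs ▸ t.2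
        obtain ⟨t', ht', htt⟩ := ht2
        let e : (N (i + 1)).1 ≃* (Φ (N i).1).ker :=
          (MulEquiv.subgroupCongr hs).trans
            ((Φ (N i).1).ker.equivMapOfInjective _ (N i).1.subtype_injective).symm
        have he : e t = ⟨t', ht'⟩ := by
          change ((Φ (N i).1).ker.equivMapOfInjective _ (N i).1.subtype_injective).symm
            (MulEquiv.subgroupCongr hs t) = _
          rw [MulEquiv.symm_apply_eq]
          apply Subtype.ext
          exact htt.symm
        have h1 := UDetect.equiv e ht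
        rw [he] at h1
        have h2 := lift_detect (N i).1 k (hEK _) (Φ (N i).1) hsurj ⟨t', ht'⟩ h1
        have h3 := ih.2 _ h2
        have h4 : ((t' : (N i).1) : H) = t := htt
        rw [← h4]
        exact h3
  refine no_chain H c (fun i => (N i).1) (fun i => (key i).1) ?_ (fun i => Φ (N i).1) ?_ ?_
  · intro i
    have h0 : (N i).1 ≠ ⊥ := fun h => hne (le_bot_iff.1 (h ▸ (key i).1))
    rw [hNs i h0]
    rintro _ ⟨x, -, rfl⟩
    exact x.2
  · intro i
    have h0 : (N i).1 ≠ ⊥ := fun h => hne (le_bot_iff.1 (h ▸ (key i).1))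
    exact (hΦ _ (N i).2 h0).1
  · intro i x
    have h0 : (N i).1 ≠ ⊥ := fun h => hne (le_bot_iff.1 (h ▸ (key i).1))
    rw [hNs i h0]
    constructor
    · intro h
      exact ⟨x, h, rfl⟩
    · rintro ⟨y, hy, hyx⟩
      have : y = x := Subtype.ext hyx
      rw [← this]
      exact hy

/-- elements of the lower central series lie in that of a finitely generated subgroup -/
theorem lcs_local {G : Type*} [Group G] (c : ℕ) : ∀ x ∈ Subgroup.lowerCentralSeries (⊤ : Subgroup G) c,
    ∃ K : Subgroup G, K.FG ∧ x ∈ K.lowerCentralSeries c := by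
  induction c with
  | zero =>
    intro x _
    refine ⟨Subgroup.closure {x}, ⟨{x}, by simp⟩, ?_⟩
    rw [Subgroup.lowerCentralSeries_zero]
    exact Subgroup.subset_closure rfl
  | succ c ih =>
    intro x hx
    rw [Subgroup.mem_lowerCentralSeries_succ_iff] at hx
    induction hx using Subgroup.closure_induction with
    | mem x hx =>
      obtain ⟨p, hp, q, -, rfl⟩ := hx
      obtain ⟨K, hK, hpK⟩ := ih p hp
      refine ⟨K ⊔ Subgroup.closure {q}, hK.sup ⟨{q}, by simp⟩, ?_⟩
      rw [Subgroup.lowerCentralSeries_succ]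
      apply Subgroup.commutator_mem_commutator
      · exact Subgroup.lowerCentralSeries_mono c le_sup_left hpK
      · exact (le_sup_right : Subgroup.closure {q} ≤ K ⊔ Subgroup.closure {q})
          (Subgroup.subset_closure rfl)
    | one => exact ⟨⊥, ⟨∅, by simp⟩, Subgroup.one_mem _⟩
    | mul x y _ _ hx hy =>
      obtain ⟨K, hK, hxK⟩ := hx
      obtain ⟨K', hK', hyK⟩ := hy
      exact ⟨K ⊔ K', hK.sup hK', Subgroup.mul_mem _
        (Subgroup.lowerCentralSeries_mono (c + 1) le_sup_left hxK)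
        (Subgroup.lowerCentralSeries_mono (c + 1) le_sup_right hyK)⟩
    | inv x _ hx =>
      obtain ⟨K, hK, hxK⟩ := hx
      exact ⟨K, hK, Subgroup.inv_mem _ hxK⟩

/-- locally indicable `k`-Engel groups have bounded class -/
theorem class_glob (hZ : ZelLie) (k : ℕ) : ∃ c : ℕ, ∀ (G : Type) [Group G],
    (∀ x y : G, (fun z : G => z⁻¹ * y⁻¹ * z * y)^[k] x = 1) →
    (∀ K : Subgroup G, K.FG → K ≠ ⊥ →
      ∃ φ : K →* Multiplicative ℤ, Function.Surjective φ) →
    upperCentralSeries G c = ⊤ := by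
  obtain ⟨c, hc⟩ := class_of_engel_locInd hZ k
  refine ⟨c, ?_⟩
  intro G _ hE hLI
  refine Subgroup.lowerCentralSeries_eq_bot_iff_upperCentralSeries_eq_top.1 ?_
  rw [eq_bot_iff]
  intro x hx
  obtain ⟨H, hH, hxH⟩ := lcs_local c x hx
  have hEH : ∀ x y : H, (fun z : H => z⁻¹ * y⁻¹ * z * y)^[k] x = 1 := by
    intro x y
    have h1 : ∀ j : ℕ, (((fun z : H => z⁻¹ * y⁻¹ * z * y)^[j] x : H) : G) =
        (fun z : G => z⁻¹ * (y : G)⁻¹ * z * y)^[j] (x : G) := by
      intro j
      induction j with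
      | zero => rfl
      | succ j ih =>
        rw [Function.iterate_succ_apply', Function.iterate_succ_apply', ← ih]
        rfl
    apply Subtype.ext
    rw [h1, hE]
    rfl
  have hLIH : ∀ K : Subgroup H, K.FG → K ≠ ⊥ →
      ∃ φ : K →* Multiplicative ℤ, Function.Surjective φ := by
    intro K hK hK0
    have h1 : (K.map H.subtype).FG := fg_map' _ hK
    have h2 : K.map H.subtype ≠ ⊥ := by
      intro h
      exact hK0 ((Subgroup.map_eq_bot_iff_of_injective K H.subtype_injective).1 h)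
    obtain ⟨φ, hφ⟩ := hLI _ h1 h2
    let e := K.equivMapOfInjective H.subtype H.subtype_injective
    exact ⟨φ.comp e.toMonoidHom, hφ.comp e.surjective⟩
  have hfg : Group.FG H := (Group.fg_iff_subgroup_fg H).2 hH
  have h := hc H hfg hEH hLIH
  rw [← Subgroup.top_subtype_lowerCentralSeries, h, Subgroup.map_bot] at hxH
  exact hxH

/-- S01969 from the Lie theorem -/
theorem zel_S01969_of (hZ : ZelLie) :
    ∀ k : ℕ, ∃ c : ℕ, ∀ (G : Type) [Group G],
      (∃ r : G → G → Prop,
        (∀ x y : G, r x y ∨ r y x) ∧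
        (∀ x y : G, r x y → r y x → x = y) ∧
        (∀ x y z : G, r x y → r y z → r x z) ∧
        (∀ x y b : G, r x y → r (x * b) (y * b))) →
      (∀ x y : G, (fun z : G => z⁻¹ * y⁻¹ * z * y)^[k] x = 1) →
      upperCentralSeries G c = ⊤ := by
  intro k
  obtain ⟨c, hc⟩ := class_glob hZ k
  refine ⟨c, ?_⟩
  intro G _ hr hE
  obtain ⟨r, htot, hanti, htr, hmul⟩ := hr
  refine hc G hE ?_
  refine (Pool.Agent.Helper277.ZG.H94.right_order_jumps (n := k) (G := G) hE
    (fun a b => r a b ∧ a ≠ b) (fun a h => h.2 rfl) ?_ ?_ ?_).2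
  · rintro a b d ⟨h1, h1'⟩ ⟨h2, h2'⟩
    refine ⟨htr _ _ _ h1 h2, ?_⟩
    rintro rfl
    exact h1' (hanti _ _ h1 h2)
  · intro a b
    by_cases hab : a = b
    · exact Or.inl hab
    · rcases htot a b with h | h
      · exact Or.inr (Or.inl ⟨h, hab⟩)
      · exact Or.inr (Or.inr ⟨h, fun h' => hab h'.symm⟩)
  · rintro a b d ⟨h1, h1'⟩
    exact ⟨hmul _ _ _ h1, fun h => h1' (mul_right_cancel h)⟩

/-- S01285 from the Lie theorem -/
theorem zel_S01285_of (hZ : ZelLie) :
    ∀ (n : ℕ) (G : Type) [Group G],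
      (∃ lo : LinearOrder G, ∀ a b c : G, lo.le a b → lo.le (a * c) (b * c)) →
      (∀ x y : G, (fun z : G => z⁻¹ * y⁻¹ * z * y)^[n] x = 1) →
      Group.IsNilpotent G := by
  intro n G _ hlo hE
  obtain ⟨c, hc⟩ := zel_S01969_of hZ n
  obtain ⟨lo, hmul⟩ := hlo
  exact ⟨⟨c, hc G ⟨lo.le, fun x y => lo.le_total x y, fun x y h1 h2 => lo.le_antisymm x y h1 h2,
    fun x y z h1 h2 => lo.le_trans x y z h1 h2, hmul⟩ hE⟩⟩

end Pool.Agent.Helper277.ZG.H94.ZelGroup
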